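import Pool.Agent.H94.LP4.M85
import Pool.Agent.H94.LP4.M87

/-!
# Module FinalL (TL): the main theorem

Let `K`, `E` be as in `final_K`, `M₁ = max M 1`, `Q = K * M₁ ^ E + 1`, `D = D_hexL(r, Q) + r Q + r + 1`.  `T = {l : d' < m' (J l) + K * M₁ ^ E}`.
If `T.card + 2 ≤ r`: `final_K` (`∑ m' (J l) ≤ (r - 1) d'` by `hred` for the image of `J`, and `K * M₁ ^ E ≤ d'`).
Otherwise `T.card ≥ r - 1`, and `T.card = r - 1`: `r` elements of `T` would have a sum `≥ r (d' - Q) > (r - 1) d'`.  Let
`e : Fin (r - 1) ↪ Fin s` enumerate `T` (`T.orderEmbOfFin`), `J' = e.trans J`, `b l = d' - m' (J' l) ≤ Q`, `B = ∑ b l`, so `∑_{J'} m' = (r - 1) d' - B`.  By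
`hred` for the image of `J'` and one or two more points: `m' i ≤ B` and `m' i + m' j ≤ B` for `i ≠ j` outside `J'`.
`finalL_dim` for `J'`, `s = r - 1`, `M = B`; `hex`: `hexL` for `S = {m' i} + x · 1`; `m ≤ B ≤ r Q` or `m = 1`; if `1 ≤ B` then at most one element of
`S` satisfies `B + 1 < 2 m` (two different `i`, `j`: `m' i + m' j ≤ B`; not the `1`s).
`cntJ` (`m' i + m' j ≤ B ≤ (r - 1) Q ≤ d'`) turns the formula for `J'` into the formula for `J`; `Ub.final_of_dim`.
-/

namespace Pool.Agent.H18.Tl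

open Finset Function Pool.Agent.H18.Ex Pool.Agent.H18.Fat Pool.Agent.H18.Pr Pool.Agent.H18.Tj

/-- The complementary sum. -/
private theorem FinalL_sum {k d' q : ℕ} (m' : Fin k → ℕ) (J : Fin q ↪ Fin k) (hm : ∀ i, m' i ≤ d') :
    ∑ l, (d' - m' (J l)) + ∑ l, m' (J l) = q * d' := by
  rw [← sum_add_distrib, sum_congr rfl fun l _ => Nat.sub_add_cancel (hm (J l)), sum_const,
    card_univ, Fintype.card_fin, smul_eq_mul]

/-- The points outside of `J` are small. -/
private theorem FinalL_one {r k d' q : ℕ} (hq : q + 1 = r) (m' : Fin k → ℕ) (J : Fin q ↪ Fin k)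
    (hm : ∀ i, m' i ≤ d')
    (hred : ∀ S : Finset (Fin k), S.card ≤ r + 1 → ∑ i ∈ S, m' i ≤ (r - 1) * d') (i : Fin k)
    (hi : ∀ l, J l ≠ i) : m' i ≤ ∑ l, (d' - m' (J l)) := by
  classical
  have h1 := FinalL_sum m' J hm
  have hni : i ∉ (univ : Finset (Fin q)).map J := by
    intro h
    obtain ⟨l, _, h2⟩ := mem_map.1 h
    exact hi l h2
  have h2 := hred (insert i ((univ : Finset (Fin q)).map J)) (by
    rw [card_insert_of_notMem hni, card_map, card_univ, Fintype.card_fin]
    omega)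
  rw [sum_insert hni, sum_map] at h2
  have h3 : r - 1 = q := by omega
  rw [h3] at h2
  omega

/-- Two points outside of `J` are small. -/
private theorem FinalL_two {r k d' q : ℕ} (hq : q + 1 = r) (m' : Fin k → ℕ) (J : Fin q ↪ Fin k)
    (hm : ∀ i, m' i ≤ d')
    (hred : ∀ S : Finset (Fin k), S.card ≤ r + 1 → ∑ i ∈ S, m' i ≤ (r - 1) * d') (i j : Fin k)
    (hij : i ≠ j) (hi : ∀ l, J l ≠ i) (hj : ∀ l, J l ≠ j) :
    m' i + m' j ≤ ∑ l, (d' - m' (J l)) := by
  classical
  have h1 := FinalL_sum m' J hm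
  have hnj : j ∉ (univ : Finset (Fin q)).map J := by
    intro h
    obtain ⟨l, _, h2⟩ := mem_map.1 h
    exact hj l h2
  have hni : i ∉ insert j ((univ : Finset (Fin q)).map J) := by
    intro h
    rcases mem_insert.1 h with h | h
    · exact hij h
    · obtain ⟨l, _, h2⟩ := mem_map.1 h
      exact hi l h2
  have h2 := hred (insert i (insert j ((univ : Finset (Fin q)).map J))) (by
    rw [card_insert_of_notMem hni, card_insert_of_notMem hnj, card_map, card_univ,
      Fintype.card_fin]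
    omega)
  rw [sum_insert hni, sum_insert hnj, sum_map] at h2
  have h3 : r - 1 = q := by omega
  rw [h3] at h2
  omega

/-- At most `r - 1` points of `J` are big. -/
private theorem FinalL_card {r k d' s Q : ℕ} (hr : 1 ≤ r) (m' : Fin k → ℕ) (J : Fin s ↪ Fin k)
    (hred : ∀ S : Finset (Fin k), S.card ≤ r + 1 → ∑ i ∈ S, m' i ≤ (r - 1) * d')
    (hd : r * Q < d') (T : Finset (Fin s)) (hT : ∀ l ∈ T, d' ≤ m' (J l) + Q) : T.card < r := by
  classical
  by_contra hcon
  push Not at hcon
  obtain ⟨T', hT', hc⟩ := exists_subset_card_eq hcon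
  have h2 := hred (T'.map J) (by
    rw [card_map]
    omega)
  rw [sum_map] at h2
  have h3 : T'.card * d' ≤ ∑ l ∈ T', (m' (J l) + Q) := by
    rw [← smul_eq_mul, ← sum_const]
    exact sum_le_sum fun l hl => hT l (hT' hl)
  rw [sum_add_distrib, sum_const, smul_eq_mul, hc] at h3
  obtain ⟨n, rfl⟩ : ∃ n, r = n + 1 := ⟨r - 1, by omega⟩
  rw [Nat.add_sub_cancel] at h2
  rw [Nat.add_mul n 1 d', one_mul] at h3
  omega

/-- The multiset of the multiplicities has at most one big element. -/
private theorem FinalL_filter {k B x : ℕ} (m' : Fin k → ℕ) (P : Fin k → Prop) [DecidablePred P]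
    (hB : 1 ≤ B) (h : ∀ i j, i ≠ j → P i → P j → m' i + m' j ≤ B) :
    (((univ.filter P).val.map m' + Multiset.replicate x 1).filter
      fun m => B + 1 < 2 * m).card ≤ 1 := by
  classical
  rw [Multiset.filter_add]
  have h1 : (Multiset.replicate x 1).filter (fun m => B + 1 < 2 * m) = 0 := by
    rw [Multiset.filter_eq_nil]
    intro a ha
    rw [Multiset.eq_of_mem_replicate ha]
    omega
  rw [h1, add_zero, Multiset.filter_map, Multiset.card_map]
  change ((univ.filter P).filter ((fun m => B + 1 < 2 * m) ∘ m')).card ≤ 1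
  rw [card_le_one]
  intro i hi j hj
  rw [mem_filter, mem_filter] at hi hj
  by_contra hij
  have h2 := h i j hij hi.1.2 hj.1.2
  have h3 : B + 1 < 2 * m' i := hi.2
  have h4 : B + 1 < 2 * m' j := hj.2
  omega

theorem final_L (r : ℕ) (hr : 3 ≤ r) : ∀ M : ℕ, ∃ D : ℕ,
    ∀ (k d d' s : ℕ) (m m' : Fin k → ℕ) (J : Fin s ↪ Fin k),
    Cremona r d m d' m' → s ≤ r + 1 → (∀ i, (∀ l, J l ≠ i) → m' i ≤ M) → (∀ i, m' i ≤ d') →
    (∀ S : Finset (Fin k), S.card ≤ r + 1 → ∑ i ∈ S, m' i ≤ (r - 1) * d') → D ≤ d' →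
    ForGeneralPoints r k fun p =>
      (Module.finrank ℂ (fatForms r d p m) : ℤ) =
        max 0 ((cnt r s (fun l => d' - m' (J l)) d' : ℤ) -
          ∑ i ∈ univ.filter (fun i => (∀ l, J l ≠ i) ∧ 1 ≤ m' i),
            (cnt r s (fun l => d' - m' (J l)) (m' i - 1) : ℤ)) ∧
      (¬ ImposesMaximalConditions r d p m ↔
        0 < (cnt r s (fun l => d' - m' (J l)) d' : ℤ) -
          ∑ i ∈ univ.filter (fun i => (∀ l, J l ≠ i) ∧ 1 ≤ m' i),
            (cnt r s (fun l => d' - m' (J l)) (m' i - 1) : ℤ) ∧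
        ((d + r).choose r : ℤ) - ∑ i, ((m i + r - 1).choose r : ℤ) <
          (cnt r s (fun l => d' - m' (J l)) d' : ℤ) -
            ∑ i ∈ univ.filter (fun i => (∀ l, J l ≠ i) ∧ 1 ≤ m' i),
              (cnt r s (fun l => d' - m' (J l)) (m' i - 1) : ℤ)) := by
  classical
  obtain ⟨K, E, hK⟩ := Tk.final_K r (by omega)
  intro M
  have hM1 : 1 ≤ max M 1 := le_max_right _ _
  generalize hC : K * max M 1 ^ E = C
  obtain ⟨D, hD⟩ := hexL r (C + 1) hr
  refine ⟨D + r * (C + 1) + r + 1, fun k d d' s m m' J hcr hs hm hmd hred hDd => ?_⟩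
  have hrC : C ≤ r * (C + 1) := by nlinarith
  by_cases hT : (univ.filter fun l => d' < m' (J l) + C).card + 2 ≤ r
  · have hsum : ∑ l, m' (J l) ≤ (r - 1) * d' := by
      have h1 := hred ((univ : Finset (Fin s)).map J) (by
        rw [card_map, card_univ, Fintype.card_fin]
        exact hs)
      rwa [sum_map] at h1
    have h2 := hK (max M 1) hM1 k d d' s m m' J hcr hs
      (fun i hi => (hm i hi).trans (le_max_left _ _)) (fun l => hmd _)
    rw [hC] at h2
    refine h2 (by omega) ?_ hT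
    obtain ⟨n, rfl⟩ : ∃ n, r = n + 1 := ⟨r - 1, by omega⟩
    rw [Nat.add_sub_cancel] at hsum
    rw [Nat.add_mul n 1 d', one_mul]
    omega
  · have hTc : (univ.filter fun l => d' < m' (J l) + C).card = r - 1 := by
      have h1 := FinalL_card (Q := C + 1) (by omega) m' J hred (by omega)
        (univ.filter fun l => d' < m' (J l) + C) (fun l hl => by
          have h2 := (mem_filter.1 hl).2
          omega)
      omega
    generalize hTd : (univ.filter fun l => d' < m' (J l) + C) = T at hTc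
    have he : ∀ l, d' < m' (J (T.orderEmbOfFin hTc l)) + C := by
      intro l
      have h1 := T.orderEmbOfFin_mem hTc l
      have h2 : ∀ x ∈ T, d' < m' (J x) + C := fun x hx => by
        rw [← hTd] at hx
        exact (mem_filter.1 hx).2
      exact h2 _ h1
    obtain ⟨e, hee⟩ : ∃ e : Fin (r - 1) ↪ Fin s, ∀ l, d' < m' (J (e l)) + C :=
      ⟨(T.orderEmbOfFin hTc).toEmbedding, he⟩
    have hone : ∀ i, (∀ l, J (e l) ≠ i) → m' i ≤ ∑ l, (d' - m' (J (e l))) := fun i hi =>
      FinalL_one (r := r) (by omega) m' (e.trans J) hmd hred i hi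
    have htwo : ∀ i j, i ≠ j → (∀ l, J (e l) ≠ i) → (∀ l, J (e l) ≠ j) →
        m' i + m' j ≤ ∑ l, (d' - m' (J (e l))) := fun i j hij hi hj =>
      FinalL_two (r := r) (by omega) m' (e.trans J) hmd hred i j hij hi hj
    have hB : ∑ l, (d' - m' (J (e l))) ≤ r * (C + 1) := by
      calc ∑ l, (d' - m' (J (e l))) ≤ ∑ _l : Fin (r - 1), (C + 1) :=
            sum_le_sum fun l _ => by
              have := hee l
              omega
        _ = (r - 1) * (C + 1) := by
            rw [sum_const, card_univ, Fintype.card_fin, smul_eq_mul]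
        _ ≤ r * (C + 1) := Nat.mul_le_mul_right _ (by omega)
    have hcnt := cntJ hs m' J e hmd fun i j hij hi hj =>
      (htwo i j hij hi hj).trans (by omega)
    rw [hcnt]
    refine Ub.final_of_dim (by omega) hcr _ ?_
    refine finalL_dim (r := r) (s := r - 1) (M := ∑ l, (d' - m' (J (e l)))) (by omega) m'
      (e.trans J) (by omega) hone (fun l => hmd _) (by omega) fun x hx => ?_
    refine hD d' (fun l => d' - m' (J (e l))) _ (by omega) (fun l => ?_) (fun a ha => ?_)
      (fun hb => ?_) hx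
    · have := hee l
      omega
    · rcases Multiset.mem_add.1 ha with ha | ha
      · obtain ⟨i, hi, rfl⟩ := Multiset.mem_map.1 ha
        have hi' : i ∈ univ.filter fun i => ∀ l, (e.trans J) l ≠ i := hi
        have h1 := hone i (mem_filter.1 hi').2
        omega
      · rw [Multiset.eq_of_mem_replicate ha]
        omega
    · exact FinalL_filter m' (fun i => ∀ l, (e.trans J) l ≠ i) hb htwo

end Pool.Agent.H18.Tl
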